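import Pool.Agent.MP_3ce0a0_al.H79.XS
import Pool.Agent.MP_3ce0a0_al.H79.XG
import Pool.Agent.MP_3ce0a0_al.H79.XB

/-
The majority signs of the conjugations of single letters form a natural module.
-/

namespace Pool.Agent.MP_3ce0a0_al.H18

open FreeGroup (of)
open Module Finset Pool.Agent.MP_3ce0a0_al.H62.Inst Pool.Agent.MP_3ce0a0_al.H79.X

section grp
variable {ι : Type} [DecidableEq ι]

/-- conjugation of the letter `e` by a word. -/
def KK (e : ι) : FreeGroup ι →* A ι :=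
  MonoidHom.mk' (fun w => Rw e w * Lw e w) fun u w => by
    rw [map_mul, map_mul]
    exact (commute_Rw_Lw e w u).mul_mul_mul_comm _ _

lemma KK_apply (e : ι) (w : FreeGroup ι) : KK e w = Rw e w * Lw e w := rfl

lemma commute_KK {S : Set ι} {e f : ι} {u w : FreeGroup ι} (h : e ≠ f) (he : e ∉ S) (hf : f ∉ S)
    (hu : u ∈ FS S) (hw : w ∈ FS S) :
    Commute (Rw e u) (KK f w) ∧ Commute (Lw e u) (KK f w) := by
  obtain ⟨h1, h2, h3⟩ := commute_ne h he hf hu hw
  obtain ⟨-, h4, -⟩ := commute_ne h.symm hf he hw hu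
  exact ⟨h1.mul_right h2, h4.symm.mul_right h3⟩

lemma fresh3 [Fintype ι] (F : Finset ι) (h : F.card + 3 ≤ Fintype.card ι) :
    ∃ e₁ e₂ e₃, e₁ ∉ F ∧ e₂ ∉ F ∧ e₃ ∉ F ∧ e₁ ≠ e₂ ∧ e₁ ≠ e₃ ∧ e₂ ≠ e₃ := by
  have h1 : 2 < Fᶜ.card := by rw [card_compl]; omega
  obtain ⟨a, b, c, ha, hb, hc, h2, h3, h4⟩ := two_lt_card_iff.1 h1
  exact ⟨a, b, c, mem_compl.1 ha, mem_compl.1 hb, mem_compl.1 hc, h2, h3, h4⟩

lemma pigeon (E : Finset ι) (hE : 4 ≤ E.card) (p q t : ι → Prop)
    (hp : ∀ e ∈ E, ∀ f ∈ E, e ≠ f → p e ∨ p f) (hq : ∀ e ∈ E, ∀ f ∈ E, e ≠ f → q e ∨ q f)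
    (ht : ∀ e ∈ E, ∀ f ∈ E, e ≠ f → t e ∨ t f) : ∃ e ∈ E, p e ∧ q e ∧ t e := by
  classical
  have key : ∀ x : ι → Prop, (∀ e ∈ E, ∀ f ∈ E, e ≠ f → x e ∨ x f) →
      (E.filter fun e => ¬ x e).card ≤ 1 := fun x hx =>
    card_le_one.2 fun e he f hf => by
      rw [mem_filter] at he hf
      by_contra k
      exact (hx e he.1 f hf.1 k).elim he.2 hf.2
  by_contra k
  have hs : E ⊆ (E.filter fun e => ¬ p e) ∪ (E.filter fun e => ¬ q e) ∪
      (E.filter fun e => ¬ t e) := fun e he => by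
    simp only [mem_union, mem_filter, he, true_and]
    by_contra k'
    exact k ⟨e, he, by tauto⟩
  have h1 := card_le_card hs
  have h2 := card_union_le ((E.filter fun e => ¬ p e) ∪ (E.filter fun e => ¬ q e))
    (E.filter fun e => ¬ t e)
  have h3 := card_union_le (E.filter fun e => ¬ p e) (E.filter fun e => ¬ q e)
  have := key p hp
  have := key q hq
  have := key t ht
  omega

end grp

section lin
variable {H : Type} [AddCommGroup H] [Module ℂ H]

lemma split_invol {x : End ℂ H} {Y : Submodule ℂ H} (hx : x * x = 1) (hk : Keeps x Y)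
    (hY : Y ≠ ⊥) : ∃ β : ℂ, β * β = 1 ∧ Y ⊓ End.eigenspace x β ≠ ⊥ := by
  obtain ⟨v, hv, h0⟩ := (Submodule.ne_bot_iff Y).1 hY
  have hxx : x (x v) = v := by rw [← End.mul_apply, hx, End.one_apply]
  by_cases h : v + x v = 0
  · refine ⟨-1, by simp, (Submodule.ne_bot_iff _).2 ⟨v, ⟨hv, ?_⟩, h0⟩⟩
    rw [SetLike.mem_coe, End.mem_eigenspace_iff, neg_one_smul]
    exact eq_neg_of_add_eq_zero_right h
  · refine ⟨1, by simp, (Submodule.ne_bot_iff _).2 ⟨v + x v, ⟨Y.add_mem hv (hk v hv), ?_⟩, h⟩⟩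
    rw [SetLike.mem_coe, End.mem_eigenspace_iff, one_smul, map_add, hxx, add_comm]

/-- a common eigenvector for commuting groups with unipotent squares. -/
lemma common [FiniteDimensional ℂ H] (h1 : SBurn) {κ G : Type} [DecidableEq κ] [Group G]
    (ρ : κ → G →* End ℂ H) (E : Finset κ) : (∀ e ∈ E, ∀ g, Uni (ρ e g ^ 2)) →
    (∀ e ∈ E, ∀ f ∈ E, e ≠ f → ∀ g g', Commute (ρ e g) (ρ f g')) →
    ∀ Y : Submodule ℂ H, Y ≠ ⊥ → (∀ e ∈ E, ∀ g, Keeps (ρ e g) Y) →
    ∃ v ∈ Y, v ≠ 0 ∧ ∀ e ∈ E, ∀ g, ρ e g v = v ∨ ρ e g v = -v := by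
  classical
  induction E using Finset.induction_on with
  | empty =>
    intro _ _ Y hY _
    obtain ⟨v, hv, h0⟩ := (Submodule.ne_bot_iff Y).1 hY
    exact ⟨v, hv, h0, fun e he => absurd he (notMem_empty e)⟩
  | insert a E ha ih =>
    intro hu hc Y hY hk
    obtain ⟨v, hv, h0, hs⟩ := (h1 H G (ρ a) Y (hk a (mem_insert_self a E))
      fun g => (hu a (mem_insert_self a E) g).on Y).1 hY
    let Z : Submodule ℂ H := ⨅ g, End.eigenspace (ρ a g) (if ρ a g v = v then 1 else -1)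
    have hv' : v ∈ Z := (Submodule.mem_iInf _).2 fun g => by
      rw [End.mem_eigenspace_iff]
      split_ifs with k
      · rw [one_smul, k]
      · rw [neg_one_smul, (hs g).resolve_left k]
    obtain ⟨w, hw, w0, hw'⟩ := ih (fun e he => hu e (mem_insert_of_mem he))
      (fun e he f hf => hc e (mem_insert_of_mem he) f (mem_insert_of_mem hf)) (Y ⊓ Z)
      ((Submodule.ne_bot_iff _).2 ⟨v, ⟨hv, hv'⟩, h0⟩) fun e he g =>
        (hk e (mem_insert_of_mem he) g).inf fun y hy => (Submodule.mem_iInf _).2 fun g' =>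
          keeps_eig (hc e (mem_insert_of_mem he) a (mem_insert_self a E)
            (fun k => ha (k ▸ he)) g g') _ y ((Submodule.mem_iInf _).1 hy g')
    refine ⟨w, hw.1, w0, fun e he g => ?_⟩
    rcases mem_insert.1 he with rfl | he
    · have k := (Submodule.mem_iInf _).1 hw.2 g
      rw [End.mem_eigenspace_iff] at k
      split_ifs at k
      · exact Or.inl (by rw [k, one_smul])
      · exact Or.inr (by rw [k, neg_one_smul])
    · exact hw' e he g

lemma one_bad [FiniteDimensional ℂ H] (h2 : SSg) {x y s t d : End ℂ H} {v : H} {β : ℂ}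
    (h0 : v ≠ 0) (hs : IsSg s x) (ht : IsSg t y) (hx : x v = v ∨ x v = -v)
    (hy : y v = v ∨ y v = -v) (hd : d v = β • v) (h : (s - d) * (t - d) = 0) :
    x v = β • v ∨ y v = β • v := by
  have key : ∀ {x s : End ℂ H}, IsSg s x → (x v = v ∨ x v = -v) →
      ∃ c : ℂ, x v = c • v ∧ (s - d) v = (c - β) • v := by
    intro x s hs hx
    obtain ⟨-, -, -, -, -, k1, k2, -⟩ := (h2 H x).2 s hs
    rcases hx with hx | hx
    · exact ⟨1, by rw [hx, one_smul], by rw [LinearMap.sub_apply, k1 v hx, hd, sub_smul, one_smul]⟩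
    · exact ⟨-1, by rw [hx, neg_one_smul],
        by rw [LinearMap.sub_apply, k2 v hx, hd, sub_smul, neg_one_smul]⟩
  obtain ⟨c, hc, hc'⟩ := key hs hx
  obtain ⟨c', hd1, hd'⟩ := key ht hy
  have k := LinearMap.congr_fun h v
  rw [End.mul_apply, hd', map_smul, hc', smul_smul, LinearMap.zero_apply, smul_eq_zero,
    or_iff_left h0, mul_eq_zero, sub_eq_zero, sub_eq_zero] at k
  rcases k with k | k
  · exact Or.inr (k ▸ hd1)
  · exact Or.inl (k ▸ hc)

end lin

section main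
variable {ι H : Type} [Fintype ι] [DecidableEq ι] [AddCommGroup H] [Module ℂ H]
  {r : Rep ι H} {D : ι → End ℂ H}

lemma comm_D (hD : DD r D) {x : End ℂ H} {b : ι} (F : Finset ι) (hb : b ∈ F)
    (hF : F.card + 3 ≤ Fintype.card ι) (h : ∀ e, e ∉ F → Commute x (r (KK e (of b)))) :
    Commute x (D b) := by
  obtain ⟨e₁, e₂, e₃, k1, k2, k3, k4, k5, k6⟩ := fresh3 F hF
  have n : ∀ e, e ∉ F → e ≠ b := fun e he k => he (k ▸ hb)
  have hn : [b, e₁, e₂, e₃].Nodup := by
    simp [k4, k5, k6, (n _ k1).symm, (n _ k2).symm, (n _ k3).symm]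
  refine Algebra.commute_of_mem_adjoin_of_forall_mem_commute (hD.2.1 b e₁ e₂ e₃ hn) fun y hy => ?_
  have h' : ∀ e, e ∉ F → Commute x (r (kk e b)) := fun e he => by
    rw [kk_eq (n e he)]
    exact h e he
  rcases hy with rfl | rfl | rfl
  · exact h' _ k1
  · exact h' _ k2
  · exact h' _ k3

lemma comm_RL (hD : DD r D) (hn : 12 ≤ Fintype.card ι) {b c e : ι} {w : FreeGroup ι}
    (he : e ∉ ({b, c} : Set ι)) (hw : w ∈ FS ({b, c} : Set ι)) :
    Commute (r (Rw e w)) (D b) ∧ Commute (r (Lw e w)) (D b) := by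
  have hF : ({b, c, e} : Finset ι).card + 3 ≤ Fintype.card ι := by
    have := card_le_three (a := b) (b := c) (c := e)
    omega
  have key : ∀ f, f ∉ ({b, c, e} : Finset ι) →
      Commute (Rw e w) (KK f (of b)) ∧ Commute (Lw e w) (KK f (of b)) := fun f hf => by
    simp only [mem_insert, mem_singleton, not_or] at hf
    exact commute_KK (Ne.symm hf.2.2) he (by simp [hf.1, hf.2.1]) hw (of_mem_FS (by simp))
  exact ⟨comm_D hD _ (by simp) hF fun f hf => (key f hf).1.map r,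
    comm_D hD _ (by simp) hF fun f hf => (key f hf).2.map r⟩

omit [Fintype ι] in
lemma uni_KK (hq : Quad r) {b c e : ι} {w : FreeGroup ι} (he : e ∉ ({b, c} : Set ι))
    (hw : w ∈ FS ({b, c} : Set ι)) : Uni (r (KK e w) ^ 2) := by
  have h1 : Uni (r (Rw e w) ^ 2) :=
    hq e {b, c} card_le_two (by simpa using he) w (by simpa using hw)
  have h0 : r (ep e) * r (ep e) = 1 := by rw [← map_mul, ep_sq, map_one]
  have h2 : Uni (r (Lw e w) ^ 2) := by
    have k := h1.conj h0 h0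
    have e1 : r (ep e) * r (Rw e w) ^ 2 * r (ep e) = r (Lw e w) ^ 2 := by
      rw [← ep_conj_Rw, r.map_mul, r.map_mul, pow_two, pow_two]
      calc r (ep e) * (r (Rw e w) * r (Rw e w)) * r (ep e)
          = r (ep e) * r (Rw e w) * 1 * (r (Rw e w) * r (ep e)) := by simp only [mul_assoc, one_mul]
        _ = _ := by rw [← h0]; simp only [mul_assoc]
    rwa [e1] at k
  have hc : Commute (r (Rw e w)) (r (Lw e w)) := (commute_Rw_Lw e w w).map r
  rw [KK_apply, map_mul, hc.mul_pow]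
  exact h1.mul h2 (hc.pow_pow 2 2)

lemma eigvec [FiniteDimensional ℂ H] (h1 : SBurn) (hq : Quad r) {b c : ι} {Y : Submodule ℂ H}
    (hY : Y ≠ ⊥) (hk : ∀ e, e ∉ ({b, c} : Finset ι) → ∀ w ∈ FS ({b, c} : Set ι),
      Keeps (r (KK e w)) Y) : ∃ v ∈ Y, v ≠ 0 ∧ ∀ e ∈ ({b, c} : Finset ι)ᶜ,
      ∀ w ∈ FS ({b, c} : Set ι), r (KK e w) v = v ∨ r (KK e w) v = -v := by
  have nm : ∀ {e : ι}, e ∈ ({b, c} : Finset ι)ᶜ → e ∉ ({b, c} : Set ι) := fun {e} he => by
    simpa using he
  obtain ⟨ρ, hρ⟩ : ∃ ρ : ι → FS ({b, c} : Set ι) →* End ℂ H, ∀ e g, ρ e g = r (KK e g.1) :=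
    ⟨fun e => (r.comp (KK e)).comp (FS ({b, c} : Set ι)).subtype, fun _ _ => rfl⟩
  obtain ⟨v, hv, h0, hs⟩ := common h1 ρ ({b, c} : Finset ι)ᶜ
    (fun e he g => by
      rw [hρ]
      exact uni_KK hq (nm he) g.2)
    (fun e he f hf k g g' => by
      have k' := commute_KK k (nm he) (nm hf) g.2 g'.2
      rw [hρ, hρ, KK_apply]
      exact (k'.1.mul_left k'.2).map r) Y hY
    fun e he g => by
      rw [hρ]
      exact hk e (mem_compl.1 he) g.1 g.2
  refine ⟨v, hv, h0, fun e he w hw => ?_⟩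
  have k := hs e he ⟨w, hw⟩
  rwa [hρ] at k

lemma twist [FiniteDimensional ℂ H] (h1 : SBurn) (h2 : SSg) (hD : DD r D)
    (hn : 12 ≤ Fintype.card ι) (hq : Quad r) {b c : ι} {α : A ι} (hα : α ∈ On ({b, c} : Set ι))
    (hb : α (of b) = of b * of c ∨ α (of b) = of c * of b) :
    r α * D b = D b * D c * r α := by
  classical
  have hsw : ({c, b} : Set ι) = {b, c} := Set.pair_comm c b
  have hF : ({b, c} : Finset ι).card + 3 ≤ Fintype.card ι := by
    have := card_le_two (a := b) (b := c)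
    omega
  have uu : r α * r α⁻¹ = 1 := by rw [← map_mul, mul_inv_cancel, map_one]
  have uu' : r α⁻¹ * r α = 1 := by rw [← map_mul, inv_mul_cancel, map_one]
  have hbm : of b ∈ FS ({b, c} : Set ι) := of_mem_FS (by simp)
  have hcm : of c ∈ FS ({b, c} : Set ι) := of_mem_FS (by simp)
  have big : ∀ {e : ι} {w : FreeGroup ι}, e ∉ ({b, c} : Set ι) → w ∈ FS ({b, c} : Set ι) →
      w ∈ FS ({e}ᶜ : Set ι) := fun {e w} he hw =>
    FS_mono (S := {b, c}) (T := {e}ᶜ) (Set.subset_compl_singleton_iff.2 he) hw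
  have conjK : ∀ {β : A ι} {e : ι} {w : FreeGroup ι}, β ∈ On ({b, c} : Set ι) → e ∉ ({b, c} : Set ι) →
      w ∈ FS ({b, c} : Set ι) → β * KK e w * β⁻¹ = KK e (β w) := fun {β e w} hβ he hw => by
    rw [KK_apply, KK_apply, ← On_conj_Rw hβ he (big he hw), ← On_conj_Lw hβ he (big he hw)]
    group
  have cb : ∀ {e : ι} {w : FreeGroup ι}, e ∉ ({b, c} : Set ι) → w ∈ FS ({b, c} : Set ι) →
      Commute (r (KK e w)) (D b) := fun {e w} he hw => by
    rw [KK_apply, map_mul]
    exact (comm_RL hD hn he hw).1.mul_left (comm_RL hD hn he hw).2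
  have cc : ∀ {e : ι} {w : FreeGroup ι}, e ∉ ({b, c} : Set ι) → w ∈ FS ({b, c} : Set ι) →
      Commute (r (KK e w)) (D c) := fun {e w} he hw => by
    rw [KK_apply, map_mul]
    rw [← hsw] at he hw
    exact (comm_RL hD hn he hw).1.mul_left (comm_RL hD hn he hw).2
  obtain ⟨D', hD'⟩ : ∃ D', D' = r α * D b * r α⁻¹ := ⟨_, rfl⟩
  have cd : ∀ {e : ι} {w : FreeGroup ι}, e ∉ ({b, c} : Set ι) → w ∈ FS ({b, c} : Set ι) →
      Commute (r (KK e w)) D' := fun {e w} he hw => by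
    have hw' : α⁻¹ w ∈ FS ({b, c} : Set ι) := (((On _).inv_mem hα).2 w).2 hw
    have e1 : r (KK e w) = r α * r (KK e (α⁻¹ w)) * r α⁻¹ := by
      rw [← map_mul, ← map_mul, conjK hα he hw', MulAut.apply_inv_self]
    have e2 := (cb he hw').eq
    rw [e1, hD']
    change _ = _
    calc r α * r (KK e (α⁻¹ w)) * r α⁻¹ * (r α * D b * r α⁻¹)
        = r α * (r (KK e (α⁻¹ w)) * (r α⁻¹ * r α) * D b) * r α⁻¹ := by simp only [mul_assoc]
      _ = r α * (D b * (r α⁻¹ * r α) * r (KK e (α⁻¹ w))) * r α⁻¹ := by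
        rw [uu', mul_one, mul_one, e2]
      _ = _ := by simp only [mul_assoc]
  have nm : ∀ {e : ι}, e ∉ ({b, c} : Finset ι) → e ∉ ({b, c} : Set ι) := fun {e} he => by
    simpa using he
  have c1 : Commute D' (D b) := comm_D hD {b, c} (by simp) hF fun e he => (cd (nm he) hbm).symm
  have c2 : Commute D' (D c) := comm_D hD {b, c} (by simp) hF fun e he => (cd (nm he) hcm).symm
  have c3 : Commute (D b) (D c) := comm_D hD {b, c} (by simp) hF fun e he => (cb (nm he) hcm).symm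
  have i1 : D' * D' = 1 := by
    rw [hD']
    calc r α * D b * r α⁻¹ * (r α * D b * r α⁻¹)
        = r α * (D b * (r α⁻¹ * r α) * D b) * r α⁻¹ := by simp only [mul_assoc]
      _ = 1 := by rw [uu', mul_one, hD.1 b, mul_one, uu]
  have i2 : D b * D c * (D b * D c) = 1 := by
    rw [c3.symm.mul_mul_mul_comm, hD.1 b, hD.1 c, mul_one]
  have i3 : D' * (D b * D c) * (D' * (D b * D c)) = 1 := by
    rw [(c1.mul_right c2).symm.mul_mul_mul_comm, i1, i2, mul_one]
  have main : End.eigenspace (D' * (D b * D c)) (-1) = ⊥ := by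
    by_contra hY
    have k1 : Keeps (D b) (End.eigenspace (D' * (D b * D c)) (-1)) :=
      keeps_eig (c1.symm.mul_right ((Commute.refl _).mul_right c3)) _
    have k2 : Keeps (D c) (End.eigenspace (D' * (D b * D c)) (-1)) :=
      keeps_eig (c2.symm.mul_right (c3.symm.mul_right (Commute.refl _))) _
    obtain ⟨β, hβ, hY1⟩ := split_invol (hD.1 b) k1 hY
    obtain ⟨γ, hγ, hY2⟩ := split_invol (hD.1 c) (k2.inf (keeps_eig c3.symm β)) hY1
    obtain ⟨v, hv, h0, hs'⟩ := eigvec h1 hq hY2 fun e he g hg =>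
      ((keeps_eig ((cd (nm he) hg).mul_right ((cb (nm he) hg).mul_right (cc (nm he) hg))) _).inf
        (keeps_eig (cb (nm he) hg) β)).inf (keeps_eig (cc (nm he) hg) γ)
    have v0 : (D' * (D b * D c)) v = (-1 : ℂ) • v := End.mem_eigenspace_iff.1 hv.1.1
    have v1 : D b v = β • v := End.mem_eigenspace_iff.1 hv.1.2
    have v2 : D c v = γ • v := End.mem_eigenspace_iff.1 hv.2
    have v3 : D' v = (-(β * γ)) • v := by
      rw [End.mul_apply, End.mul_apply, v2, map_smul, v1, map_smul, map_smul, smul_smul] at v0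
      have e1 : D' v = (β * γ) • (γ * β) • D' v := by
        rw [smul_smul, show β * γ * (γ * β) = (β * β) * (γ * γ) by ring, hβ, hγ, mul_one, one_smul]
      rw [e1, v0, smul_smul, mul_neg_one]
    have sg : ∀ e ∈ ({b, c} : Finset ι)ᶜ, ∀ a ∈ ({b, c} : Finset ι),
        e ≠ a ∧ ∃ s, IsSg s (r (KK e (of a))) := fun e he a ha =>
      ⟨fun k => mem_compl.1 he (k ▸ ha), (h2 H _).1
        (uni_KK hq (nm (mem_compl.1 he)) (of_mem_FS (by simpa using ha)))⟩
    have rel : ∀ a ∈ ({b, c} : Finset ι), ∀ e ∈ ({b, c} : Finset ι)ᶜ, ∀ f ∈ ({b, c} : Finset ι)ᶜ,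
        e ≠ f → ∃ s t, IsSg s (r (KK e (of a))) ∧ IsSg t (r (KK f (of a))) ∧
          (s - D a) * (t - D a) = 0 := fun a ha e he f hf k => by
      obtain ⟨n1, s, hs⟩ := sg e he a ha
      obtain ⟨n2, t, ht⟩ := sg f hf a ha
      refine ⟨s, t, hs, ht, (hD.2.2.2.1 a e s n1 ?_).2 f t n2 k.symm ?_⟩
      · rwa [kk_eq n1]
      · rwa [kk_eq n2]
    have hE : 4 ≤ (({b, c} : Finset ι)ᶜ).card := by
      have := card_le_two (a := b) (b := c)
      rw [card_compl]
      omega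
    have hαb : α (of b) ∈ FS ({b, c} : Set ι) := (hα.2 _).2 hbm
    obtain ⟨e, he, p1, p2, p3⟩ := pigeon (({b, c} : Finset ι)ᶜ) hE
      (fun e => r (KK e (of b)) v = β • v) (fun e => r (KK e (of c)) v = γ • v)
      (fun e => r (KK e (α (of b))) v = (-(β * γ)) • v)
      (fun e he f hf k => by
        obtain ⟨s, t, k1, k2, k3⟩ := rel b (by simp) e he f hf k
        exact one_bad h2 h0 k1 k2 (hs' e he _ hbm) (hs' f hf _ hbm) v1 k3)
      (fun e he f hf k => by
        obtain ⟨s, t, k1, k2, k3⟩ := rel c (by simp) e he f hf k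
        exact one_bad h2 h0 k1 k2 (hs' e he _ hcm) (hs' f hf _ hcm) v2 k3)
      (fun e he f hf k => by
        obtain ⟨s, t, k1, k2, k3⟩ := rel b (by simp) e he f hf k
        have cj : ∀ {e : ι} {s : End ℂ H}, e ∈ ({b, c} : Finset ι)ᶜ → IsSg s (r (KK e (of b))) →
            IsSg (r α * s * r α⁻¹) (r (KK e (α (of b)))) := fun {e s} he hs => by
          obtain ⟨-, -, -, -, -, -, -, -, k, -⟩ := (h2 H _).2 s hs
          have k' := k _ _ uu
          rwa [← map_mul, ← map_mul, conjK hα (nm (mem_compl.1 he)) hbm] at k'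
        refine one_bad h2 h0 (cj he k1) (cj hf k2) (hs' e he _ hαb) (hs' f hf _ hαb) v3 ?_
        rw [hD']
        calc (r α * s * r α⁻¹ - r α * D b * r α⁻¹) * (r α * t * r α⁻¹ - r α * D b * r α⁻¹)
            = r α * ((s - D b) * (r α⁻¹ * r α) * (t - D b)) * r α⁻¹ := by
              simp only [mul_sub, sub_mul, mul_assoc]
          _ = 0 := by rw [uu', mul_one, k3, mul_zero, zero_mul])
    have p4 : r (KK e (α (of b))) v = (β * γ) • v := by
      rcases hb with hb | hb <;> rw [hb, map_mul, map_mul, End.mul_apply]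
      · rw [p2, map_smul, p1, smul_smul, mul_comm]
      · rw [p1, map_smul, p2, smul_smul]
    rw [p4] at p3
    have p5 : β * γ = -(β * γ) := smul_left_injective ℂ h0 p3
    have p6 : β * γ = 0 := by linear_combination p5 / 2
    have p7 : (β * β) * (γ * γ) = 0 := by linear_combination (β * γ) * p6
    rw [hβ, hγ] at p7
    simp at p7
  have t1 : D' * (D b * D c) = 1 := LinearMap.ext fun v => by
    have k : v - (D' * (D b * D c)) v ∈ End.eigenspace (D' * (D b * D c)) (-1) := by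
      rw [End.mem_eigenspace_iff, map_sub, ← End.mul_apply, i3, End.one_apply, neg_one_smul,
        neg_sub]
    rw [main, Submodule.mem_bot, sub_eq_zero] at k
    exact k.symm
  have t2 : D' = D b * D c := by
    calc D' = D' * (D b * D c * (D b * D c)) := by rw [i2, mul_one]
      _ = D b * D c := by rw [← mul_assoc, t1, one_mul]
  rw [← t2, hD', mul_assoc, uu', mul_one]

end main

theorem sd2 (h1 : SBurn) (h2 : SSg) : SD2 := by
  intro ι H _ _ _ _ _ r D hn hq hD
  refine ⟨fun b c => ?_, fun a b c k1 k2 => ?_, fun b c k => ⟨?_, ?_⟩⟩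
  · refine comm_D hD {b, c} (by simp) ?_ fun e he => ?_
    · have := card_le_two (a := b) (b := c)
      omega
    · have k := comm_RL hD hn (b := b) (c := c) (e := e) (w := of c) (by simpa using he)
        (of_mem_FS (by simp))
      rw [KK_apply, map_mul]
      exact (k.1.mul_left k.2).symm
  · have hm : of c ∈ FS ({b, c} : Set ι) := of_mem_FS (by simp)
    have ha : a ∉ ({b, c} : Set ι) := by simp [k1, k2]
    rw [rh_eq k1, la_eq k1, ← map_inv]
    exact ⟨(comm_RL hD hn ha hm).1.symm, (comm_RL hD hn ha (inv_mem hm)).2.symm⟩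
  · exact twist h1 h2 hD hn hq (rh_mem_On (by simp) (by simp)) (Or.inl (by simp [rh_of k]))
  · exact twist h1 h2 hD hn hq (la_mem_On (by simp) (by simp)) (Or.inr (by simp [la_of k]))

end Pool.Agent.MP_3ce0a0_al.H18
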